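import Pool.Agent.Helper29.AR.Props
import Pool.Agent.Helper9.SR.Pass

/-!
# MP_b55b7c_an, project AR: packet PassL
-/

open scoped ENNReal NNReal InnerProductSpace ComplexOrder
open Filter Topology

attribute [-instance] CStarMatrix.instAlgebra CStarMatrix.instModule CStarMatrix.instSMul
  CStarMatrix.instMulAction CStarMatrix.instDistribMulAction

noncomputable section
namespace RC
universe u

section
variable {M : Type u} [CStarAlgebra M] [PartialOrder M] [StarOrderedRing M]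

theorem passL_cu_conj (F L : M) (hF : IsSelfAdjoint F) : Cu (one1 (F * L * F)) (one1 L) :=
  fun ε hε => by
  refine ⟨one1 F, ?_⟩
  have h2 : (one1 F).conjTranspose = one1 F := by
    ext i j
    show star F = F
    exact hF.star_eq
  have h3 : one1 F * one1 L * (one1 F).conjTranspose = one1 (F * L * F) := by
    rw [h2]
    have e1 := map_mul (one1H (A := M)) (F * L) F
    have e2 := map_mul (one1H (A := M)) F L
    have e3 : one1 (F * L * F) = one1 (F * L) * one1 F := e1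
    have e4 : one1 (F * L) = one1 F * one1 L := e2
    rw [e3, e4]
  rw [h3, sub_self, norm_zero]
  exact hε

theorem passL_cut_zero {x : M} (hx : 0 ≤ x) : cut (one1 x) 0 = one1 x :=
  cut_zero (one1_nonneg hx)

theorem passL_dim_add (hAdd : CuAddP.{u}) (hQ : QMonoP.{u}) (hDs : QDsumP.{u}) (σ : QTrace M)
    {x y : M} (hx : 0 ≤ x) (hy : 0 ≤ y) :
    σ.dim (one1 (x + y)) ≤ σ.dim (one1 x) + σ.dim (one1 y) := by
  have h1 := hAdd M Unit (one1 x) (one1 y) 0 0 le_rfl le_rfl (one1_nonneg hx) (one1_nonneg hy)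
  have h2 : one1 x + one1 y = one1 (x + y) := (map_add (one1H (A := M)) x y).symm
  rw [h2, add_zero, passL_cut_zero hx, passL_cut_zero hy, passL_cut_zero (add_nonneg hx hy)] at h1
  have h3 := hDs M σ Unit Unit (one1 x) (one1 y) (one1_nonneg hx) (one1_nonneg hy)
  have h4 := hQ M σ Unit (Unit ⊕ Unit) _ _ (one1_nonneg (add_nonneg hx hy)) h3.1 h1
  rwa [h3.2] at h4

end

theorem passLP (hTr : CuTransP.{u}) (hLe : CuLeAddP.{u}) (hSw : CuSwapP.{u})
    (hAdd : CuAddP.{u}) (hQ : QMonoP.{u}) (hDs : QDsumP.{u}) : PassLP.{u} := by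
  intro M _ _ _ v w L ε δ θ hL hδ hθ hB
  unfold BelL at hB
  set F : M := cut (sq v) ε with hF
  have hFsa : IsSelfAdjoint F := cut_sa _ _
  set W : M := w * F with hW
  have hWW : star W * W = F * sq w * F := by
    rw [hW, star_mul, hFsa.star_eq, sq]
    simp only [mul_assoc]
  have hFF : 0 ≤ F * F := by
    have := star_mul_self_nonneg F
    rwa [hFsa.star_eq] at this
  have hFLF : 0 ≤ F * L * F := by
    have := star_left_conjugate_nonneg hL F
    rwa [hFsa.star_eq] at this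
  set K : ℝ := ‖F‖ ^ 2 + 1 with hK
  have hK0 : 0 < K := by positivity
  set s : ℝ := δ * θ / (4 * K) with hs
  have hs0 : 0 < s := by positivity
  have hKs : K * s = δ * θ / 4 := by
    rw [hs]; field_simp
  refine ⟨s, hs0, fun σ => ?_⟩
  -- step 1
  have h1 : F * F ≤ δ⁻¹ • (star W * W) + δ⁻¹ • (F * L * F) := by
    rw [hWW]
    have := smul_le_smul_of_nonneg_left hB (inv_nonneg.2 hδ.le)
    rw [smul_smul, inv_mul_cancel₀ hδ.ne', one_smul, mul_add, add_mul, smul_add] at this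
    exact this
  have h1' : δ⁻¹ • (star W * W) ≤ δ⁻¹ • cut (star W * W) (δ * θ / 2) + θ • (1 : M) := by
    refine (pass_le_cut (s := δ * θ / 2) (inv_nonneg.2 hδ.le) (IsSelfAdjoint.star_mul_self W)
      le_rfl).trans ?_
    refine add_le_add le_rfl ?_
    refine smul_le_smul_of_nonneg_right ?_ zero_le_one
    have : δ⁻¹ * (δ * θ / 2) = θ / 2 := by field_simp
    rw [this]; linarith
  have hP : 0 ≤ δ⁻¹ • cut (star W * W) (δ * θ / 2) :=
    smul_nonneg (inv_nonneg.2 hδ.le) (cut_nonneg _ _)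
  have hQ0 : 0 ≤ δ⁻¹ • (F * L * F) := smul_nonneg (inv_nonneg.2 hδ.le) hFLF
  have h2 : F * F ≤ (δ⁻¹ • cut (star W * W) (δ * θ / 2) + δ⁻¹ • (F * L * F)) + θ • (1 : M) := by
    refine (h1.trans (add_le_add h1' le_rfl)).trans (le_of_eq ?_)
    abel
  have c1 : Cu (one1 (cut (F * F) θ))
      (one1 (δ⁻¹ • cut (star W * W) (δ * θ / 2) + δ⁻¹ • (F * L * F))) :=
    pass_cu_leAdd hLe hθ.le hFF (add_nonneg hP hQ0) h2
  have d1 : σ.dim (one1 (cut (F * F) θ)) ≤
      σ.dim (one1 (δ⁻¹ • cut (star W * W) (δ * θ / 2))) + σ.dim (one1 (δ⁻¹ • (F * L * F))) :=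
    (hQ M σ Unit Unit _ _ (one1_nonneg (cut_nonneg _ _)) (one1_nonneg (add_nonneg hP hQ0)) c1).trans
      (passL_dim_add hAdd hQ hDs σ hP hQ0)
  have c0 : Cu (one1 (δ⁻¹ • (F * L * F))) (one1 L) :=
    hTr M _ _ _ _ _ _ (pass_cu_smul _ (inv_nonneg.2 hδ.le) _) (passL_cu_conj F L hFsa)
  have d0 : σ.dim (one1 (δ⁻¹ • (F * L * F))) ≤ σ.dim (one1 L) :=
    hQ M σ Unit Unit _ _ (one1_nonneg hQ0) (one1_nonneg hL) c0
  have c2 : Cu (one1 (δ⁻¹ • cut (star W * W) (δ * θ / 2)))
      (one1 (cut (star W * W) (δ * θ / 2))) := pass_cu_smul _ (inv_nonneg.2 hδ.le) _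
  have c3 : Cu (one1 (cut (star W * W) (δ * θ / 2))) (one1 (cut (W * star W) (δ * θ / 2))) :=
    pass_cu_swap hSw W (by positivity)
  -- step 2
  have h4 : F * F ≤ K • (1 : M) := by
    have hn : ‖F * F‖ ≤ K := by
      calc ‖F * F‖ ≤ ‖F‖ * ‖F‖ := norm_mul_le _ _
        _ ≤ K := by rw [hK]; nlinarith
    have := (CStarAlgebra.norm_le_iff_le_algebraMap (F * F) hK0.le hFF).1 hn
    rwa [Algebra.algebraMap_eq_smul_one] at this
  have h5 : W * star W ≤ K • (w * star w) := by
    have e1 : W * star W = w * (F * F) * star w := by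
      rw [hW, star_mul, hFsa.star_eq]
      simp only [mul_assoc]
    have e2 := star_right_conjugate_le_conjugate h4 w
    rw [e1]
    refine e2.trans (le_of_eq ?_)
    rw [mul_smul_comm, mul_one, smul_mul_assoc]
  have h6 : W * star W ≤ K • cut (w * star w) s + (δ * θ / 2) • (1 : M) := by
    refine (pass_le_cut (s := s) hK0.le (IsSelfAdjoint.mul_star_self w) h5).trans ?_
    refine add_le_add le_rfl ?_
    refine smul_le_smul_of_nonneg_right ?_ zero_le_one
    rw [hKs]
    have : 0 < δ * θ := by positivity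
    linarith
  have c4 : Cu (one1 (cut (W * star W) (δ * θ / 2))) (one1 (K • cut (w * star w) s)) :=
    pass_cu_leAdd hLe (by positivity) (mul_star_self_nonneg W)
      (smul_nonneg hK0.le (cut_nonneg _ _)) h6
  have c5 : Cu (one1 (K • cut (w * star w) s)) (one1 (cut (w * star w) s)) :=
    pass_cu_smul _ hK0.le _
  have c6 : Cu (one1 (cut (w * star w) s)) (one1 (cut (sq w) s)) := by
    have := pass_cu_swap hSw (star w) hs0.le
    rwa [star_star] at this
  have c : Cu (one1 (δ⁻¹ • cut (star W * W) (δ * θ / 2))) (one1 (cut (sq w) s)) :=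
    hTr M _ _ _ _ _ _ (hTr M _ _ _ _ _ _ (hTr M _ _ _ _ _ _ (hTr M _ _ _ _ _ _
      c2 c3) c4) c5) c6
  have d2 : σ.dim (one1 (δ⁻¹ • cut (star W * W) (δ * θ / 2))) ≤ σ.dim (one1 (cut (sq w) s)) :=
    hQ M σ Unit Unit _ _ (one1_nonneg hP) (one1_nonneg (cut_nonneg _ _)) c
  exact d1.trans (add_le_add d2 d0)

end RC
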